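import Pool.Agent.Helper93.HZ.Spec2

/-!
# HZ, module N2: vertices with finite nontrivial stabilizer survive in the resolved complex (5.3)
-/

set_option autoImplicit false

open MulAction Pointwise

namespace Pool.Agent.Helper93.HZ

theorem n2_fix_unique (hT : ST_TFC) {U : Type} {T : SimpleGraph U} (hT' : T.IsTree) {N : U → U} (hN : IsField T N)
    {u w : U} (hu : N u = u) (hw : N w = w) : u = w := by
  obtain ⟨k, hk⟩ := (hT U T hT' N N hN hN).1 u w (fun _ => hu) (fun _ => hw)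
  have h1 : N^[k] u = u := Function.iterate_fixed hu k
  rcases hk with h | h <;> rw [h, h1]

theorem n2_center (hTFC : ST_TFC) (hINF : ST_INF) {G : Type} [Group G] (D : Setup G) (K : Cx G) (P : Pts D K)
    (hR : Red D K) (x : K.V) (hfin : Finite (stabilizer G x)) (hne : stabilizer G x ≠ ⊥) :
    ∃ y z c, K.tri x y z ∧ IsCenter (P.N x) (P.N y) (P.N z) c ∧ P.N x c = c := by
  -- `x` is elliptic
  have hell : EllV D K x := by
    by_contra hx
    obtain ⟨-, -, ⟨z, k, hz, hzo, -⟩, -⟩ := P.hyp x hx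
    apply hzo
    have hzm : z ∈ stabilizer G x := by
      rw [hz]; exact Subgroup.mem_zpowers z
    have : Finite (stabilizer G x) := hfin
    have h1 : IsOfFinOrder (⟨z, hzm⟩ : stabilizer G x) := isOfFinOrder_of_finite _
    exact Submonoid.isOfFinOrder_coe.2 h1
  obtain ⟨ξ, hξ⟩ := P.ell x hell
  have hgξ : ∀ g : G, g • x = x → g • ξ = ξ := by
    intro g hg
    refine n2_fix_unique hTFC D.tree (P.fN x) ?_ hξ
    have h1 := P.eN g x ξ
    rw [hg, hξ] at h1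
    exact h1
  by_contra hcon
  -- no triangle at `x` has the center `ξ`
  have key : ∀ y z, K.tri x y z → P.N y ξ = P.N z ξ ∧ P.N y ξ ≠ ξ := by
    intro y z hyz
    by_contra h
    apply hcon
    refine ⟨y, z, ξ, hyz, ⟨fun _ => hξ, fun h1 => ?_, fun _ => hξ⟩, hξ⟩
    by_contra h2
    exact h ⟨h1, h2⟩
  obtain ⟨hlink, htri⟩ := hR.R2 x (Or.inl hfin)
  have hsame : ∀ y y', K.adj x y → K.adj x y' → P.N y ξ = P.N y' ξ := by
    intro y y' hy hy'
    have h1 := hlink y y' hy hy'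
    induction h1 with
    | refl => rfl
    | tail _ hbc ih =>
      have h2 : K.adj x _ := K.tri_adj _ _ _ hbc
      rw [ih h2]
      exact (key _ _ hbc).1
  obtain ⟨y0, hy0⟩ := K.nbr x
  obtain ⟨z0, hz0⟩ := htri y0 hy0
  have hw : P.N y0 ξ ≠ ξ := (key _ _ hz0).2
  have hadj : D.T.Adj ξ (P.N y0 ξ) := ((P.fN y0).1 ξ).resolve_left hw
  obtain ⟨z, hzo, hz⟩ := hINF G D |>.2.1 _ _ hadj
  -- the stabilizer of `x` fixes the edge
  have hfix : ∀ g : G, g • x = x → g ∈ Subgroup.zpowers z := by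
    intro g hg
    rw [← hz, Subgroup.mem_inf]
    refine ⟨hgξ g hg, ?_⟩
    have h1 := P.eN g y0 ξ
    have h2 : K.adj x (g • y0) := by
      have := K.smul_adj g _ _ hy0
      rwa [hg] at this
    rw [hgξ g hg, hsame _ _ h2 hy0] at h1
    exact h1.symm
  apply hne
  rw [Subgroup.eq_bot_iff_forall]
  intro g hg
  obtain ⟨k, hk⟩ := hfix g hg
  have hk' : z ^ k = g := hk
  have : Finite (stabilizer G x) := hfin
  have h1 : IsOfFinOrder (⟨g, hg⟩ : stabilizer G x) := isOfFinOrder_of_finite _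
  have h2 : IsOfFinOrder g := Submonoid.isOfFinOrder_coe.2 h1
  by_contra hg1
  obtain ⟨m, hm, hgm⟩ := isOfFinOrder_iff_pow_eq_one.1 h2
  have hk0 : k ≠ 0 := by
    rintro rfl
    rw [zpow_zero] at hk'
    exact hg1 hk'.symm
  apply hzo
  rw [isOfFinOrder_iff_zpow_eq_one]
  refine ⟨k * m, mul_ne_zero hk0 (by exact_mod_cast hm.ne'), ?_⟩
  rw [zpow_mul, hk', zpow_natCast, hgm]

theorem st_N2 (hTFC : ST_TFC) (hRFIN : ST_RFIN) (hRSTAB : ST_RSTAB) (hINF : ST_INF) (hRSYM : ST_RSYM) : ST_N2 := by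
  intro G _ D K P Q hR _ _
  unfold nn oc
  have hfinT : ((fun x : AV Q => orbit G x) '' {p : AV Q | (∃ q r, atri Q p q r) ∧ Finite (stabilizer G p) ∧
      stabilizer G p ≠ ⊥}).Finite := by
    have h1 := (hRFIN G D K P Q).1
    unfold FinOrb at h1
    refine (h1.image (fun O => Prod.fst '' O)).subset ?_
    rintro O ⟨p, ⟨⟨q, r, hpqr⟩, -, -⟩, rfl⟩
    refine ⟨orbit G (p, q), ⟨(p, q), (hRSYM G D K P Q).2.2.1 p q r hpqr, rfl⟩, ?_⟩
    ext a
    constructor
    · rintro ⟨b, ⟨g, rfl⟩, rfl⟩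
      exact ⟨g, rfl⟩
    · rintro ⟨g, rfl⟩
      exact ⟨g • (p, q), ⟨g, rfl⟩, rfl⟩
  refine Set.ncard_le_ncard_of_injOn (fun O : Set K.V => (Sum.inl '' O : Set (AV Q))) ?_ ?_ hfinT
  · rintro O ⟨x, ⟨-, hfin, hne⟩, rfl⟩
    obtain ⟨y, z, c, htri, hc, hxc⟩ := n2_center hTFC hINF D K P hR x hfin hne
    have hst := (hRSTAB G D K P Q).2.2 x
    refine ⟨(Sum.inl x : AV Q), ⟨⟨pos Q y z c, pos Q z x c, x, y, z, c, htri, hc, ?_, rfl, rfl⟩, ?_, ?_⟩, ?_⟩
    · unfold pos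
      rw [if_pos hxc]
    · rw [hst]; exact hfin
    · rw [hst]; exact hne
    · ext a
      constructor
      · rintro ⟨g, rfl⟩
        exact ⟨g • x, ⟨g, rfl⟩, rfl⟩
      · rintro ⟨b, ⟨g, rfl⟩, rfl⟩
        exact ⟨g, rfl⟩
  · intro O _ O' _ h
    exact Sum.inl_injective.image_injective h

end Pool.Agent.Helper93.HZ
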